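import Pool.Agent.FS.CrThree.Main

/-!
A lower bound `3 n` for the colour-reversal number.

If every nonempty vertex set meets the common neighbourhood of some two distinct non-adjacent
vertices in an odd number of vertices, then `cr G ≥ 3 n`.  The hypothesis holds for graphs of
girth at least five and minimum degree at least two (`three_card_le_cr_of_girth`) and for cycles
of length at least five (`three_mul_le_cr_cycle`).
-/

open Pool.Agent.Lib.MP_3f5cd8_lc Pool.Agent.FS.CrThree in
theorem Pool.Agent.Lib.MP_3f5cd8_lc.Variants.ThreeTimes.result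
    (V : Type) [Fintype V] (G : SimpleGraph V)
    (hG : ∀ S : Set V, S.Nonempty → ∃ u v, u ≠ v ∧ ¬ G.Adj u v ∧
      Odd (S ∩ G.neighborSet u ∩ G.neighborSet v).ncard) :
    ((3 * Fintype.card V : ℕ) : ℕ∞) ≤ cr G :=
  three_card_le_cr G hG
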